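import Pool.Agent.Helper98K9.CP.St

set_option autoImplicit false

/-! # Leaf [APX]: approximation of events by local events -/

namespace Pool.Agent.Helper98K9.CP

open MeasureTheory ProbabilityTheory
open scoped ENNReal NNReal symmDiff

/-- [APX] -/
theorem apx : S_APX := by
  intro ι _ p hp A hA ε hε
  obtain ⟨t, ht, hlt⟩ := exists_measure_symmDiff_lt_of_generateFrom_isSetRing (μ := PP ι p hp)
    (C := measurableCylinders (fun _ : ι => Bool)) isSetRing_measurableCylinders
    ⟨{Set.univ}, Set.countable_singleton _, by
      simpa using univ_mem_measurableCylinders (fun _ : ι => Bool), by simp⟩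
    generateFrom_measurableCylinders.symm hA (ENNReal.ofReal_pos.2 hε)
  obtain ⟨D, S, mS, rfl⟩ := (mem_measurableCylinders t).1 ht
  refine ⟨D, cylinder D S, ?_, MeasurableSet.cylinder D mS, ?_, ?_⟩
  · intro ω ω' h hω
    rw [mem_cylinder] at hω ⊢
    have : D.restrict ω' = D.restrict ω := by
      ext i
      simp [h i.1 i.2]
    rwa [this]
  · have h1 : PP ι p hp (A \ cylinder D S) ≤ PP ι p hp (cylinder D S ∆ A) :=
      measure_mono Set.subset_union_right
    have h2 := h1.trans hlt.le
    rw [measureReal_def]
    exact (ENNReal.toReal_mono ENNReal.ofReal_ne_top h2).trans_eq (ENNReal.toReal_ofReal hε.le)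
  · have h1 : PP ι p hp (cylinder D S \ A) ≤ PP ι p hp (cylinder D S ∆ A) :=
      measure_mono Set.subset_union_left
    have h2 := h1.trans hlt.le
    rw [measureReal_def]
    exact (ENNReal.toReal_mono ENNReal.ofReal_ne_top h2).trans_eq (ENNReal.toReal_ofReal hε.le)

end Pool.Agent.Helper98K9.CP
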