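import Pool.Agent.Helper10K9.CP.Tree
import Pool.Agent.Helper98K9.CP.Basic
import Pool.Agent.IIC.P_harris_tau

set_option autoImplicit false

/-! # Leaves [CONT], [FINA] -/

namespace Pool.Agent.Helper98K9.CP

open MeasureTheory ProbabilityTheory Filter Topology
open scoped ENNReal NNReal

open Pool.Agent.IIC.HTau in
/-- [CONT] -/
theorem cont : S_CONT := by
  classical
  intro ι D A hA
  have e : (fun p : {p : ℝ≥0 // p ≤ 1} => (PP ι p.1 p.2).real A) =
      fun p : {p : ℝ≥0 // p ≤ 1} => ∑ a : D → Bool, wB p.1 D a * (if exB D a ∈ A then 1 else 0) := by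
    funext p
    exact real_depJ p.1 p.2 hA
  rw [e]
  refine continuous_finsetSum _ fun a _ => Continuous.mul ?_ continuous_const
  unfold wB
  refine continuous_finsetProd _ fun i _ => ?_
  unfold wq
  by_cases h : a i = true
  · simp only [h, if_true]
    exact NNReal.continuous_coe.comp continuous_subtype_val
  · simp only [h, if_false]
    exact continuous_const.sub (NNReal.continuous_coe.comp continuous_subtype_val)

namespace FinaL

open TreeL

theorem cn_iUnion (b : ℕ) (ω : Cf) (W : ℕ → Set Vx) (hW : Monotone W) (x y : Vx)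
    (h : Cn b ω (⋃ n, W n) x y) : ∃ n, Cn b ω (W n) x y := by
  obtain ⟨w⟩ := h
  induction w with
  | nil => exact ⟨0, SimpleGraph.Reachable.refl _⟩
  | @cons u v z hadj w ih =>
    obtain ⟨n, hn⟩ := ih
    obtain ⟨h0, h1, h2, c, h3⟩ := hadj
    obtain ⟨i, hi⟩ := Set.mem_iUnion.1 h1
    obtain ⟨j, hj⟩ := Set.mem_iUnion.1 h2
    refine ⟨max n (max i j), ?_⟩
    have ha : (og b ω (W (max n (max i j)))).Adj u v :=
      ⟨h0, hW (by omega) hi, hW (by omega) hj, c, h3⟩
    exact ha.reachable.trans (Cn.mono (hW (by omega)) (fun _ _ h => h) hn)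

/-- the exhausting blocks -/
def Wb (b M : ℕ) : Set Vx := Blk b M M ((M : ℤ), 0) 0

theorem Wb_mono (b : ℕ) : Monotone (Wb b) := by
  refine monotone_nat_of_le_succ fun M => ?_
  rintro y ⟨⟨j, hj, h1⟩, h2, h3⟩
  refine ⟨⟨j + 1, by omega, ?_⟩, by push_cast; omega, by push_cast; omega⟩
  rw [Function.iterate_succ_apply', h1]
  simp [par]

theorem Wb_iUnion (b : ℕ) (hb : 2 ≤ b) : ⋃ M, Wb b M = WC := by
  ext y
  simp only [Set.mem_iUnion, WC, Set.mem_ofPred_eq]
  constructor
  · rintro ⟨M, ⟨j, hj, h1⟩, -, -⟩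
    have := congrArg Prod.fst h1
    rw [par_iter] at this
    simp only at this
    omega
  · intro h0
    obtain ⟨⟨k, m⟩, h⟩ := y
    simp only at h0
    obtain ⟨k, rfl⟩ := Int.eq_ofNat_of_zero_le h0
    refine ⟨k + m + h.natAbs, ⟨m + h.natAbs, by omega, ?_⟩,
      by show (0 : ℤ) - ((k + m + h.natAbs : ℕ) : ℤ) ≤ h; omega,
      by show h ≤ (0 : ℤ) + ((k + m + h.natAbs : ℕ) : ℤ); omega⟩
    rw [par_iter]
    refine Prod.ext ?_ ?_
    · simp only; push_cast; ring
    · simp only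
      apply Nat.div_eq_of_lt
      calc m < b ^ m := Nat.lt_pow_self (by omega)
        _ ≤ b ^ (m + h.natAbs) := Nat.pow_le_pow_right (by omega) (by omega)

end FinaL

open FinaL TreeL

/-- [FINA] -/
theorem fina : S_FINA := by
  intro b hb p hp a n h
  set x : Vx := (((a : ℤ), 0), 0) with hx
  set y : Vx := ((((a + n : ℕ) : ℤ), 0), 0) with hy
  let E : ℕ → Set Cf := fun M => {ω | Cn b ω (Wb b M) x y}
  have hE : Monotone E := fun M M' hM ω hω => Cn.mono (Wb_mono b hM) (fun _ _ h => h) hω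
  have hU : ⋃ M, E M = {ω | Cn b ω WC x y} := by
    ext ω
    simp only [Set.mem_iUnion, E, Set.mem_ofPred_eq]
    constructor
    · rintro ⟨M, hM⟩
      refine Cn.mono ?_ (fun _ _ h => h) hM
      rw [← Wb_iUnion b hb]
      exact Set.subset_iUnion _ M
    · intro hω
      rw [← Wb_iUnion b hb] at hω
      exact cn_iUnion b ω (Wb b) (Wb_mono b) x y hω
  have h1 : Tendsto (fun M => (PP Ed p hp).real (E M)) atTop
      (𝓝 ((PP Ed p hp).real {ω | Cn b ω WC x y})) := by
    rw [← hU]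
    have := tendsto_measure_iUnion_atTop (μ := PP Ed p hp) hE
    exact (ENNReal.tendsto_toReal (measure_ne_top _ _)).comp this
  have h2 : Tendsto (fun M => (b : ℝ) ^ n * ((PP Ed p hp).real (E M)) ^ 2) atTop
      (𝓝 ((b : ℝ) ^ n * ((PP Ed p hp).real {ω | Cn b ω WC x y}) ^ 2)) :=
    (h1.pow 2).const_mul _
  have h3 := (h2.eventually (lt_mem_nhds h)).and (eventually_ge_atTop (a + n))
  obtain ⟨M, hM1, hM2⟩ := h3.exists
  exact ⟨M, M, hM2, hM1⟩

end Pool.Agent.Helper98K9.CP
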