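import Pool.Agent.Helper10K9.CP.Tree

set_option autoImplicit false

/-! # Leaf [GW]: second moment method -/

namespace Pool.Agent.Helper98K9.CP

open MeasureTheory ProbabilityTheory
open scoped ENNReal NNReal

namespace GwL

open TreeL

/-- the descendants of `z` of depth `n` -/
def desc (b n : ℕ) (z : Vt) : Finset Vt :=
  (Finset.Ico (z.2 * b ^ n) ((z.2 + 1) * b ^ n)).map ⟨fun m => (z.1 - n, m), fun x y h => by
    simpa using h⟩

theorem mem_desc (b : ℕ) (hb : 2 ≤ b) (n : ℕ) (z w : Vt) :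
    w ∈ desc b n z ↔ (par b)^[n] w = z := by
  have hpos : 0 < b ^ n := by positivity
  rw [par_iter]
  obtain ⟨w1, w2⟩ := w
  obtain ⟨z1, z2⟩ := z
  simp only [desc, Finset.mem_map, Finset.mem_Ico, Function.Embedding.coeFn_mk, Prod.mk.injEq]
  constructor
  · rintro ⟨m, ⟨h1, h2⟩, h3, h4⟩
    subst h4
    refine ⟨by omega, ?_⟩
    rw [Nat.div_eq_iff hpos]
    constructor
    · exact h1
    · have : (z2 + 1) * b ^ n = z2 * b ^ n + b ^ n := by ring
      omega
  · rintro ⟨h1, h2⟩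
    rw [Nat.div_eq_iff hpos] at h2
    refine ⟨w2, ⟨h2.1, ?_⟩, by omega, rfl⟩
    have : (z2 + 1) * b ^ n = z2 * b ^ n + b ^ n := by ring
    omega

theorem card_desc (b n : ℕ) (z : Vt) : (desc b n z).card = b ^ n := by
  simp only [desc, Finset.card_map, Nat.card_Ico]
  have : (z.2 + 1) * b ^ n = z.2 * b ^ n + b ^ n := by ring
  omega

theorem pow_id (b q : ℝ) (k i : ℕ) : (b ^ k * q ^ 2) ^ i = b ^ (k * i) * (q ^ i) ^ 2 := by
  rw [mul_pow, ← pow_mul, ← pow_mul, ← pow_mul, mul_comm 2 i]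

/-- the deterministic sum bound -/
theorem sum_bound (b : ℕ) (hb : 2 ≤ b) (K i : ℕ) (z : Vt) (q m : ℝ) (hq : 0 ≤ q)
    (hm : m = (b : ℝ) ^ (K + 1) * q ^ 2) (hm1 : 1 < m) (P : Vt → Vt → ℝ)
    (hP0 : ∀ w w', 0 ≤ P w w')
    (hP1 : ∀ w ∈ desc b ((K + 1) * i) z, P w w ≤ q ^ i)
    (hP2 : ∀ w ∈ desc b ((K + 1) * i) z, ∀ w' ∈ desc b ((K + 1) * i) z, ∀ t < i,
      (par b)^[(K + 1) * t] w ≠ (par b)^[(K + 1) * t] w' → P w w' ≤ q ^ (i + t)) :
    ∑ w ∈ desc b ((K + 1) * i) z, ∑ w' ∈ desc b ((K + 1) * i) z, P w w' ^ 2 ≤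
      (1 + (b : ℝ) ^ (K + 1) / (m - 1)) * (m ^ i) ^ 2 := by
  classical
  set T := desc b ((K + 1) * i) z with hT
  -- pointwise bound
  have h1 : ∀ w ∈ T, ∀ w' ∈ T, P w w' ^ 2 ≤ (if w' = w then (q ^ i) ^ 2 else 0) +
      ∑ t ∈ Finset.range i, (if w' ∈ desc b ((K + 1) * (t + 1)) ((par b)^[(K + 1) * (t + 1)] w)
        then (q ^ (i + t)) ^ 2 else 0) := by
    intro w hw w' hw'
    have hsn : ∀ t ∈ Finset.range i, (0 : ℝ) ≤ (if w' ∈ desc b ((K + 1) * (t + 1))
        ((par b)^[(K + 1) * (t + 1)] w) then (q ^ (i + t)) ^ 2 else 0) := by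
      intro t _; split_ifs <;> positivity
    by_cases h : w' = w
    · subst h
      rw [if_pos rfl]
      have := pow_le_pow_left₀ (hP0 w' w') (hP1 w' hw) 2
      have h3 := Finset.sum_nonneg hsn
      linarith
    · rw [if_neg h, zero_add]
      -- the last step where the ancestors differ
      have hi : (par b)^[(K + 1) * i] w = (par b)^[(K + 1) * i] w' := by
        rw [(mem_desc b hb _ _ _).1 hw, (mem_desc b hb _ _ _).1 hw']
      have hex : ∃ t, (par b)^[(K + 1) * t] w = (par b)^[(K + 1) * t] w' := ⟨i, hi⟩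
      set s := Nat.find hex with hs
      have hs1 := Nat.find_spec hex
      have hs2 : s ≤ i := Nat.find_min' hex hi
      have hs0 : s ≠ 0 := by
        intro h0
        rw [← hs, h0] at hs1
        simp only [mul_zero, Function.iterate_zero, id] at hs1
        exact h hs1.symm
      obtain ⟨t, ht⟩ := Nat.exists_eq_succ_of_ne_zero hs0
      have hti : t < i := by omega
      have hne : (par b)^[(K + 1) * t] w ≠ (par b)^[(K + 1) * t] w' :=
        Nat.find_min hex (by omega)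
      have h2 := pow_le_pow_left₀ (hP0 w w') (hP2 w hw w' hw' t hti hne) 2
      refine h2.trans ?_
      refine le_trans ?_ (Finset.single_le_sum hsn (Finset.mem_range.2 hti))
      rw [if_pos]
      rw [mem_desc b hb]
      rw [← hs, ht] at hs1
      exact hs1.symm
  have h2 : ∀ w ∈ T, ∑ w' ∈ T, P w w' ^ 2 ≤ (q ^ i) ^ 2 +
      ∑ t ∈ Finset.range i, (b : ℝ) ^ ((K + 1) * (t + 1)) * (q ^ (i + t)) ^ 2 := by
    intro w hw
    refine (Finset.sum_le_sum (h1 w hw)).trans ?_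
    rw [Finset.sum_add_distrib, Finset.sum_ite_eq' T w, if_pos hw, Finset.sum_comm]
    refine add_le_add le_rfl (Finset.sum_le_sum fun t _ => ?_)
    rw [← Finset.sum_filter, Finset.sum_const, nsmul_eq_mul]
    refine mul_le_mul_of_nonneg_right ?_ (by positivity)
    have : (T.filter (fun w' => w' ∈ desc b ((K + 1) * (t + 1))
        ((par b)^[(K + 1) * (t + 1)] w))).card ≤ b ^ ((K + 1) * (t + 1)) := by
      rw [← card_desc b ((K + 1) * (t + 1)) ((par b)^[(K + 1) * (t + 1)] w)]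
      exact Finset.card_le_card fun x hx => (Finset.mem_filter.1 hx).2
    exact_mod_cast this
  have h3 : ∑ w ∈ T, ∑ w' ∈ T, P w w' ^ 2 ≤ (b : ℝ) ^ ((K + 1) * i) * ((q ^ i) ^ 2 +
      ∑ t ∈ Finset.range i, (b : ℝ) ^ ((K + 1) * (t + 1)) * (q ^ (i + t)) ^ 2) := by
    refine (Finset.sum_le_sum h2).trans ?_
    rw [Finset.sum_const, nsmul_eq_mul, hT, card_desc]
    push_cast; rfl
  refine h3.trans ?_
  have h4 : (b : ℝ) ^ ((K + 1) * i) * ((q ^ i) ^ 2 +
      ∑ t ∈ Finset.range i, (b : ℝ) ^ ((K + 1) * (t + 1)) * (q ^ (i + t)) ^ 2)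
      = m ^ i * (1 + (b : ℝ) ^ (K + 1) * ∑ t ∈ Finset.range i, m ^ t) := by
    have e1 : m ^ i = (b : ℝ) ^ ((K + 1) * i) * (q ^ i) ^ 2 := by
      rw [hm, mul_pow, ← pow_mul, ← pow_mul, ← pow_mul, mul_comm 2 i]
    have e5 : ∑ t ∈ Finset.range i, (b : ℝ) ^ ((K + 1) * (t + 1)) * (q ^ (i + t)) ^ 2
        = (q ^ i) ^ 2 * ((b : ℝ) ^ (K + 1) * ∑ t ∈ Finset.range i, m ^ t) := by
      rw [Finset.mul_sum, Finset.mul_sum]
      refine Finset.sum_congr rfl fun t _ => ?_
      rw [hm]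
      ring
    rw [e1, e5]
    ring
  rw [h4]
  have hg : (∑ t ∈ Finset.range i, m ^ t) * (m - 1) = m ^ i - 1 := geom_sum_mul m i
  have hg2 : ∑ t ∈ Finset.range i, m ^ t = (m ^ i - 1) / (m - 1) := by
    rw [eq_div_iff (by linarith), hg]
  rw [hg2]
  have hmi : 1 ≤ m ^ i := one_le_pow₀ hm1.le
  have hB : 0 ≤ (b : ℝ) ^ (K + 1) / (m - 1) := by
    have : 0 < m - 1 := by linarith
    positivity
  have e2 : (b : ℝ) ^ (K + 1) * ((m ^ i - 1) / (m - 1)) = (b : ℝ) ^ (K + 1) / (m - 1) * (m ^ i - 1) := by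
    ring
  rw [e2]
  nlinarith [mul_nonneg hB (by linarith : (0 : ℝ) ≤ m ^ i), mul_nonneg (by linarith : (0 : ℝ) ≤ m ^ i)
    (by linarith : (0 : ℝ) ≤ m ^ i - 1), mul_nonneg hB (mul_nonneg (by linarith : (0 : ℝ) ≤ m ^ i) zero_le_one)]

/-- Paley-Zygmund for a function with finite second moment -/
theorem paley {Ω : Type*} [MeasurableSpace Ω] (μ : Measure Ω) [IsProbabilityMeasure μ] (N : Ω → ℝ)
    (hN : Measurable N) (h0 : ∀ ω, 0 ≤ N ω) (hb : ∃ B, ∀ ω, N ω ≤ B) (E C : ℝ) (hE : 0 < E)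
    (hC : 1 ≤ C) (h1 : ∫ ω, N ω ∂μ = E) (h2 : ∫ ω, N ω ^ 2 ∂μ ≤ C * E ^ 2) :
    1 / (4 * C) ≤ μ.real {ω | E / 2 ≤ N ω} := by
  obtain ⟨B, hB⟩ := hb
  have hB0 : ∀ ω, |N ω| ≤ B := fun ω => by rw [abs_of_nonneg (h0 ω)]; exact hB ω
  have i1 : Integrable N μ := Integrable.of_bound hN.aestronglyMeasurable B
    (Filter.Eventually.of_forall fun ω => by rw [Real.norm_eq_abs]; exact hB0 ω)
  have i2 : Integrable (fun ω => N ω ^ 2) μ := by
    refine Integrable.of_bound (hN.pow_const 2).aestronglyMeasurable (B ^ 2)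
      (Filter.Eventually.of_forall fun ω => ?_)
    rw [Real.norm_eq_abs, abs_pow]
    exact pow_le_pow_left₀ (abs_nonneg _) (hB0 ω) 2
  set A : Set Ω := {ω | E / 2 ≤ N ω} with hA
  have mA : MeasurableSet A := measurableSet_le measurable_const hN
  have i3 : Integrable (A.indicator fun _ => (1 : ℝ)) μ := (integrable_const _).indicator mA
  have e3 : ∫ ω, A.indicator (fun _ => (1 : ℝ)) ω ∂μ = μ.real A := by
    rw [integral_indicator_const (1 : ℝ) mA]; simp
  have hC0 : 0 < C := by linarith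
  have pw : ∀ ω, N ω ≤ E / 2 + (N ω ^ 2 / (4 * C * E) + (C * E) * A.indicator (fun _ => (1 : ℝ)) ω) := by
    intro ω
    by_cases hω : ω ∈ A
    · rw [Set.indicator_of_mem hω, mul_one]
      have h3 : 0 < 4 * C * E := by positivity
      have h4 : N ω ≤ N ω ^ 2 / (4 * C * E) + C * E := by
        rw [← sub_nonneg]
        have : N ω ^ 2 / (4 * C * E) + C * E - N ω = (N ω - 2 * (C * E)) ^ 2 / (4 * C * E) := by
          field_simp
          ring
        rw [this]
        positivity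
      linarith [half_pos hE]
    · rw [Set.indicator_of_notMem hω, mul_zero, add_zero]
      have h3 : N ω < E / 2 := not_le.1 hω
      have h4 : 0 ≤ N ω ^ 2 / (4 * C * E) := by positivity
      linarith
  have j1 : Integrable (fun x => N x ^ 2 / (4 * C * E)) μ := i2.div_const (4 * C * E)
  have j2 : Integrable (fun x => (C * E) * A.indicator (fun _ => (1 : ℝ)) x) μ := i3.const_mul (C * E)
  have j3 : Integrable (fun x => N x ^ 2 / (4 * C * E) + (C * E) * A.indicator (fun _ => (1 : ℝ)) x) μ :=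
    j1.add j2
  have j4 : Integrable (fun x => E / 2 + (N x ^ 2 / (4 * C * E) +
      (C * E) * A.indicator (fun _ => (1 : ℝ)) x)) μ := (integrable_const _).add j3
  have h5 := integral_mono i1 j4 pw
  have e5 : ∫ x, (E / 2 + (N x ^ 2 / (4 * C * E) + (C * E) * A.indicator (fun _ => (1 : ℝ)) x)) ∂μ
      = E / 2 + ((∫ ω, N ω ^ 2 ∂μ) / (4 * C * E) + C * E * μ.real A) := by
    have e6 : ∫ x, N x ^ 2 / (4 * C * E) ∂μ = (∫ ω, N ω ^ 2 ∂μ) / (4 * C * E) := integral_div _ _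
    rw [integral_add (integrable_const _) j3, integral_add j1 j2, e6, integral_const_mul,
      e3, integral_const, probReal_univ, one_smul]
  rw [h1, e5] at h5
  have h6 : (∫ ω, N ω ^ 2 ∂μ) / (4 * C * E) ≤ E / 4 := by
    rw [div_le_iff₀ (by positivity)]
    calc _ ≤ C * E ^ 2 := h2
      _ = _ := by ring
  rw [div_le_iff₀ (by positivity)]
  have h7 : E / 4 ≤ C * E * μ.real A := by linarith
  have h8 : E * 1 ≤ E * (μ.real A * (4 * C)) := by linarith
  exact le_of_mul_le_mul_left h8 hE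

end GwL

open GwL TreeL

/-- [GW] -/
theorem gw (hS : S_STEP) (hP : S_PAIR) (hM : S_MEAS) : S_GW := by
  intro b hb K R p hp hmu
  classical
  set q : ℝ := (p : ℝ) * piKR b K R p hp with hq
  set m : ℝ := mu b K R p hp with hm
  have hmq : m = (b : ℝ) ^ (K + 1) * q ^ 2 := rfl
  have hq0 : 0 ≤ q := mul_nonneg p.2 measureReal_nonneg
  have hm0 : 0 < m - 1 := by linarith
  set C : ℝ := 1 + (b : ℝ) ^ (K + 1) / (m - 1) with hC
  have hC1 : 1 ≤ C := by
    have : 0 ≤ (b : ℝ) ^ (K + 1) / (m - 1) := by positivity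
    linarith
  refine ⟨1 / (4 * C), by positivity, fun i z => ?_⟩
  set T := desc b ((K + 1) * i) z with hT
  let μ2 : Measure (Cf × Cf) := (PP Ed p hp).prod (PP Ed p hp)
  let A : Vt → Set Cf := fun w => {ω : Cf | w ∈ Rs b K R ω i z}
  have mA : ∀ w, MeasurableSet (A w) := fun w => rs_meas hM b K R i z w
  let N : Cf × Cf → ℝ := fun x => ∑ w ∈ T, (A w ×ˢ A w).indicator (fun _ => (1 : ℝ)) x
  have mN : Measurable N :=
    Finset.measurable_sum _ fun w _ => measurable_const.indicator ((mA w).prod (mA w))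
  have hcard : ∀ x : Cf × Cf, ((Rs b K R x.1 i z ∩ Rs b K R x.2 i z).ncard : ℝ) = N x := by
    intro x
    have e : (Rs b K R x.1 i z ∩ Rs b K R x.2 i z) = (T.filter (fun w => x ∈ A w ×ˢ A w) : Set Vt) := by
      ext w
      simp only [Set.mem_inter_iff, Finset.coe_filter, Set.mem_ofPred_eq, Set.mem_prod, A]
      constructor
      · rintro ⟨h1, h2⟩
        exact ⟨(mem_desc b hb _ _ _).2 h1.1, h1, h2⟩
      · rintro ⟨-, h1, h2⟩
        exact ⟨h1, h2⟩
    rw [e, Set.ncard_coe_finset, Finset.card_filter]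
    push_cast
    refine Finset.sum_congr rfl fun w _ => ?_
    rw [Set.indicator_apply]
  have hpr : ∀ w w', μ2.real ((A w ×ˢ A w) ∩ (A w' ×ˢ A w')) =
      (PP Ed p hp).real (A w ∩ A w') ^ 2 := by
    intro w w'
    rw [Set.prod_inter_prod]
    show ((PP Ed p hp).prod (PP Ed p hp)).real _ = _
    rw [measureReal_prod_prod, sq]
  have hI : ∀ S : Set (Cf × Cf), MeasurableSet S → Integrable (S.indicator fun _ => (1 : ℝ)) μ2 :=
    fun S hS => (integrable_const _).indicator hS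
  have hIv : ∀ S : Set (Cf × Cf), MeasurableSet S →
      ∫ x, S.indicator (fun _ => (1 : ℝ)) x ∂μ2 = μ2.real S := by
    intro S hS; rw [integral_indicator_const (1 : ℝ) hS]; simp
  have hstep : ∀ w ∈ T, (PP Ed p hp).real (A w) = q ^ i := fun w hw =>
    hS b hb K R p hp i z w ((mem_desc b hb _ _ _).1 hw)
  have e1 : ∫ x, N x ∂μ2 = m ^ i := by
    show ∫ x, ∑ w ∈ T, (A w ×ˢ A w).indicator (fun _ => (1 : ℝ)) x ∂μ2 = m ^ i
    rw [integral_finsetSum _ fun w _ => hI _ ((mA w).prod (mA w))]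
    have : ∀ w ∈ T, ∫ x, (A w ×ˢ A w).indicator (fun _ => (1 : ℝ)) x ∂μ2 = (q ^ i) ^ 2 := by
      intro w hw
      rw [hIv _ ((mA w).prod (mA w))]
      have := hpr w w
      rw [Set.inter_self, Set.inter_self] at this
      rw [this, hstep w hw]
    rw [Finset.sum_congr rfl this, Finset.sum_const, nsmul_eq_mul, hT, card_desc, hmq, pow_id,
      Nat.cast_pow]
  have e2 : ∫ x, N x ^ 2 ∂μ2 ≤ C * (m ^ i) ^ 2 := by
    have e3 : ∀ x, N x ^ 2 = ∑ w ∈ T, ∑ w' ∈ T,
        ((A w ×ˢ A w) ∩ (A w' ×ˢ A w')).indicator (fun _ => (1 : ℝ)) x := by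
      intro x
      show (∑ w ∈ T, (A w ×ˢ A w).indicator (fun _ => (1 : ℝ)) x) ^ 2 = _
      rw [sq, Finset.sum_mul_sum]
      refine Finset.sum_congr rfl fun w _ => Finset.sum_congr rfl fun w' _ => ?_
      rw [Set.indicator_apply, Set.indicator_apply, Set.indicator_apply]
      by_cases h1 : x ∈ A w ×ˢ A w <;> by_cases h2 : x ∈ A w' ×ˢ A w' <;> simp [h1, h2]
    simp only [e3]
    rw [integral_finsetSum _ fun w _ => integrable_finsetSum _ fun w' _ =>
      hI _ (((mA w).prod (mA w)).inter ((mA w').prod (mA w')))]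
    have e4 : ∀ w ∈ T, ∫ x, ∑ w' ∈ T, ((A w ×ˢ A w) ∩ (A w' ×ˢ A w')).indicator
        (fun _ => (1 : ℝ)) x ∂μ2 = ∑ w' ∈ T, (PP Ed p hp).real (A w ∩ A w') ^ 2 := by
      intro w _
      rw [integral_finsetSum _ fun w' _ => hI _ (((mA w).prod (mA w)).inter ((mA w').prod (mA w')))]
      refine Finset.sum_congr rfl fun w' _ => ?_
      rw [hIv _ (((mA w).prod (mA w)).inter ((mA w').prod (mA w'))), hpr]
    rw [Finset.sum_congr rfl e4]
    exact sum_bound b hb K i z q m hq0 hmq hmu (fun w w' => (PP Ed p hp).real (A w ∩ A w'))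
      (fun _ _ => measureReal_nonneg) (fun w hw => by rw [Set.inter_self]; exact (hstep w hw).le)
      (fun w hw w' hw' t ht hne => hP b hb K R p hp i t z w w' ht ((mem_desc b hb _ _ _).1 hw)
        ((mem_desc b hb _ _ _).1 hw') hne)
  have hpz := paley μ2 N mN
    (fun x => Finset.sum_nonneg fun w _ => Set.indicator_nonneg (fun _ _ => zero_le_one) x)
    ⟨T.card, fun x => by
      refine (Finset.sum_le_sum (g := fun _ => (1 : ℝ)) fun w _ => ?_).trans (by simp)
      exact Set.indicator_le' (fun _ _ => le_rfl) (fun _ _ => zero_le_one) x⟩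
    (m ^ i) C (by positivity) hC1 e1 e2
  refine hpz.trans (measureReal_mono ?_)
  intro x hx
  show 1 / (4 * C) * m ^ i ≤ _
  rw [hcard x]
  have h1 : m ^ i / 2 ≤ N x := hx
  refine le_trans ?_ h1
  have h2 : 1 / (4 * C) ≤ 1 / 2 := by
    apply one_div_le_one_div_of_le <;> linarith
  have h3 : 0 ≤ m ^ i := by positivity
  nlinarith

end Pool.Agent.Helper98K9.CP
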