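import Pool.Agent.Helper98K9.CP.St
import Pool.Agent.IIC.P_harris

set_option autoImplicit false

/-! # Leaves [IND], [REIDX], [HAR]: independence, reindexing and Harris' inequality -/

namespace Pool.Agent.Helper98K9.CP

open MeasureTheory ProbabilityTheory
open scoped ENNReal NNReal

namespace ProbL

/-- the sigma-algebra of the bits in `D` -/
def sg {ι : Type} (D : Set ι) : MeasurableSpace (ι → Bool) :=
  ⨆ i ∈ D, MeasurableSpace.comap (fun ω : ι → Bool => ω i) inferInstance

theorem meas_of_dep {ι : Type} (D : Set ι) (A : Set (ι → Bool)) (h : Dep D A)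
    (hA : MeasurableSet A) : MeasurableSet[sg D] A := by
  classical
  have e : A = (fun (ω : ι → Bool) (i : ι) => if i ∈ D then ω i else false) ⁻¹' A := by
    ext ω
    constructor
    · intro hω
      exact h ω _ (fun e he => by simp [he]) hω
    · intro hω
      exact h _ ω (fun e he => by simp [he]) hω
  have m : @Measurable _ _ (sg D) _
      (fun (ω : ι → Bool) (i : ι) => if i ∈ D then ω i else false) := by
    refine @measurable_pi_lambda _ _ _ (sg D) _ _ fun i => ?_
    by_cases hi : i ∈ D
    · simp only [hi, if_true]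
      have : MeasurableSpace.comap (fun ω : ι → Bool => ω i) inferInstance ≤ sg D :=
        le_iSup₂_of_le i hi le_rfl
      exact Measurable.mono (comap_measurable _) this le_rfl
    · simp only [hi, if_false]
      exact measurable_const
  rw [e]
  exact m hA

end ProbL

/-- [IND] -/
theorem ind : S_IND := by
  intro ι _ p hp D D' A A' hD hA hA' mA mA'
  have h1 : iIndepFun (fun (i : ι) (ω : ι → Bool) => ω i) (PP ι p hp) := by
    unfold PP
    exact iIndepFun_infinitePi (X := fun (_ : ι) (b : Bool) => b) (by fun_prop)
  have h2 := indep_iSup_of_disjoint (fun i => (measurable_pi_apply i).comap_le) h1 hD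
  have h3 := (Indep_iff _ _ _).1 h2 A A' (ProbL.meas_of_dep D A hA mA)
    (ProbL.meas_of_dep D' A' hA' mA')
  simp only [measureReal_def]
  rw [h3, ENNReal.toReal_mul]

/-- [REIDX] -/
theorem reidx : S_REIDX := by
  intro ι κ p hp f hf
  refine ⟨by fun_prop, ?_⟩
  unfold PP
  exact Measure.map_infinitePi_infinitePi_of_inj (P := fun _ : ι => (PMF.bernoulli p hp).toMeasure) hf

/-- [HAR] -/
theorem har : S_HAR := by
  intro ι _ p hp A B mA mB hA hB
  have := Pool.Agent.IIC.harris ι p hp A B mA mB hA hB
  simp only [measureReal_def, PP]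
  rw [← ENNReal.toReal_mul]
  exact ENNReal.toReal_mono (measure_ne_top _ _) this

end Pool.Agent.Helper98K9.CP
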