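import Pool.Agent.Helper10K9.CP.Prob

set_option autoImplicit false

/-! # Leaves [STEP], [PAIR] -/

namespace Pool.Agent.Helper98K9.CP

open MeasureTheory ProbabilityTheory
open scoped ENNReal NNReal

namespace TreeL

theorem par_iter (b j : ℕ) (x : Vt) : (par b)^[j] x = (x.1 + j, x.2 / b ^ j) := by
  induction j with
  | zero => simp
  | succ j ih =>
    rw [Function.iterate_succ_apply', ih]
    simp only [par, Nat.div_div_eq_div_mul, pow_succ, Prod.mk.injEq, and_true]
    push_cast; ring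

theorem og_congr (b : ℕ) (ω ω' : Cf) (W : Set Vx) (h : ∀ e ∈ edg b W, ω e = ω' e) :
    og b ω W = og b ω' W := by
  have key : ∀ ω ω' : Cf, (∀ e ∈ edg b W, ω e = ω' e) → ∀ x y, (og b ω W).Adj x y →
      (og b ω' W).Adj x y := by
    rintro ω ω' h x y ⟨h1, h2, h3, c, h4⟩
    refine ⟨h1, h2, h3, c, ?_⟩
    rcases h4 with ⟨h5, h6⟩ | ⟨h5, h6⟩
    · exact Or.inl ⟨h5, by rw [← h (x, c) ⟨h2, by rw [h5]; exact h3⟩]; exact h6⟩
    · exact Or.inr ⟨h5, by rw [← h (y, c) ⟨h3, by rw [h5]; exact h2⟩]; exact h6⟩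
  ext x y
  exact ⟨key ω ω' h x y, key ω' ω (fun e he => (h e he).symm) x y⟩

theorem cn_dep (b : ℕ) (W : Set Vx) (x y : Vx) : Dep (edg b W) {ω : Cf | Cn b ω W x y} := by
  intro ω ω' h hω
  simp only [Set.mem_ofPred_eq, Cn] at hω ⊢
  rwa [← og_congr b ω ω' W h]

/-- the automorphism of the product given by `σ` and the translation by `h` -/
def Phi (σ : Vt ≃ Vt) (h : ℤ) : Vx ≃ Vx := σ.prodCongr (Equiv.addRight h)

/-- the action on edges -/
def Fe (σ : Vt ≃ Vt) (h : ℤ) : Ed → Ed := fun e => (Phi σ h e.1, e.2)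

theorem Fe_inj (σ : Vt ≃ Vt) (h : ℤ) : Function.Injective (Fe σ h) := by
  rintro ⟨x, c⟩ ⟨y, d⟩ hxy
  simp only [Fe, Prod.mk.injEq, EmbeddingLike.apply_eq_iff_eq] at hxy
  exact Prod.ext hxy.1 hxy.2

theorem hd_Phi (b : ℕ) (σ : Vt ≃ Vt) (hσ : ∀ y, σ (par b y) = par b (σ y)) (h : ℤ) (e : Ed) :
    hd b (Fe σ h e) = Phi σ h (hd b e) := by
  obtain ⟨⟨x, t⟩, c⟩ := e
  cases c
  · simp [hd, Fe, Phi, hσ]
  · simp only [hd, Fe, Phi, Equiv.prodCongr_apply, Prod.map_apply, Equiv.coe_addRight, if_true,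
      Prod.mk.injEq, true_and]
    ring

theorem cn_aut (b : ℕ) (σ : Vt ≃ Vt) (hσ : ∀ y, σ (par b y) = par b (σ y)) (h : ℤ) (ω : Cf)
    (W : Set Vx) (x y : Vx) :
    Cn b (fun e => ω (Fe σ h e)) (Phi σ h ⁻¹' W) x y ↔ Cn b ω W (Phi σ h x) (Phi σ h y) := by
  let I : og b (fun e => ω (Fe σ h e)) (Phi σ h ⁻¹' W) ≃g og b ω W :=
    { toEquiv := Phi σ h
      map_rel_iff' := by
        intro u v
        have e1 : ∀ (a c : Vx) (t : Bool), hd b (Phi σ h a, t) = Phi σ h c ↔ hd b (a, t) = c := by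
          intro a c t
          have h1 : hd b (Phi σ h a, t) = Phi σ h (hd b (a, t)) := hd_Phi b σ hσ h (a, t)
          rw [h1, (Phi σ h).injective.eq_iff]
        simp only [og, Set.mem_preimage, e1, Fe, ne_eq, EmbeddingLike.apply_eq_iff_eq] }
  exact (SimpleGraph.Iso.reachable_iff (φ := I) (u := x) (v := y)).symm

theorem iter_comm (b : ℕ) (σ : Vt ≃ Vt) (hσ : ∀ y, σ (par b y) = par b (σ y)) (j : ℕ) (y : Vt) :
    (par b)^[j] (σ y) = σ ((par b)^[j] y) := by
  induction j with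
  | zero => rfl
  | succ j ih => rw [Function.iterate_succ_apply', Function.iterate_succ_apply', ih, hσ]

theorem blk_pre (b : ℕ) (σ : Vt ≃ Vt) (hσ : ∀ y, σ (par b y) = par b (σ y)) (K R : ℕ) (z : Vt)
    (h h' : ℤ) : Phi σ h ⁻¹' (Blk b K R (σ z) (h' + h)) = Blk b K R z h' := by
  ext y
  simp only [Blk, Set.mem_preimage, Set.mem_ofPred_eq, Phi, Equiv.prodCongr_apply, Prod.map,
    Equiv.coe_addRight, iter_comm b σ hσ, EmbeddingLike.apply_eq_iff_eq]
  constructor
  · rintro ⟨h1, h2, h3⟩; exact ⟨h1, by omega, by omega⟩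
  · rintro ⟨h1, h2, h3⟩; exact ⟨h1, by omega, by omega⟩

theorem prob_true {ι : Type} (p : ℝ≥0) (hp : p ≤ 1) (e : ι) :
    (PP ι p hp).real {ω | ω e = true} = p := by
  have h1 := (measurePreserving_eval_infinitePi (fun _ : ι => (PMF.bernoulli p hp).toMeasure) e)
  have h2 := h1.measure_preimage (s := {true}) (measurableSet_singleton _).nullMeasurableSet
  have h3 : (Function.eval e ⁻¹' {true} : Set (ι → Bool)) = {ω | ω e = true} := by
    ext ω; simp
  rw [h3] at h2
  rw [measureReal_def, PP, h2, PMF.toMeasure_apply_singleton _ _ (measurableSet_singleton _)]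
  simp [PMF.bernoulli]

theorem prob_cn (hA : S_AUT) (b : ℕ) (hb : 2 ≤ b) (K R : ℕ) (p : ℝ≥0) (hp : p ≤ 1) (z u : Vt)
    (hz : (par b)^[K] u = z) (hM : S_MEAS) :
    (PP Ed p hp).real {ω | Cn b ω (Blk b K R z 0) (z, 0) (u, 0)} = piKR b K R p hp := by
  obtain ⟨σ, hσ, h0, -⟩ := hA b hb (0, 0) u
  have hK : σ ((K : ℤ), 0) = z := by
    have : (par b)^[K] ((0, 0) : Vt) = ((K : ℤ), 0) := by rw [par_iter]; simp
    rw [← this, ← iter_comm b σ hσ, h0, hz]
  have h1 := reidx Ed Ed p hp (Fe σ 0) (Fe_inj σ 0)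
  have h2 := h1.measure_preimage (s := {ω | Cn b ω (Blk b K R ((K : ℤ), 0) 0) (((K : ℤ), 0), 0)
    ((0, 0), 0)}) (hM b _ _ _).1.nullMeasurableSet
  unfold piKR
  rw [measureReal_def, measureReal_def, ← h2]
  congr 2
  ext ω
  simp only [Set.mem_ofPred_eq, Set.mem_preimage]
  have h3 := cn_aut b σ hσ 0 ω (Blk b K R z 0) (((K : ℤ), 0), 0) ((0, 0), 0)
  have h4 := blk_pre b σ hσ K R ((K : ℤ), 0) 0 0
  rw [hK, add_zero] at h4
  rw [h4] at h3
  rw [h3]
  simp only [Phi, Equiv.prodCongr_apply, Prod.map, Equiv.coe_addRight, add_zero, hK, h0]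

/-- the edges whose upper end is a descendant of `z` of depth at most `K` -/
def DD (b K : ℕ) (z : Vt) : Set Ed := {e | ∃ j ≤ K, (par b)^[j] (hd b e).1 = z}

theorem DD_disj (b K : ℕ) (z z' : Vt) (hne : z ≠ z')
    (h : z.1 = z'.1 ∨ z.1 + K + 1 ≤ z'.1 ∨ z'.1 + K + 1 ≤ z.1) : Disjoint (DD b K z) (DD b K z') := by
  rw [Set.disjoint_left]
  rintro e ⟨j, hj, h1⟩ ⟨j', hj', h2⟩
  have e1 : z.1 = (hd b e).1.1 + j := by rw [← h1, par_iter]
  have e2 : z'.1 = (hd b e).1.1 + j' := by rw [← h2, par_iter]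
  have : j = j' := by omega
  subst this
  exact hne (h1.symm.trans h2)

theorem edg_sub (b K R : ℕ) (z : Vt) (h : ℤ) : edg b (Blk b K R z h) ⊆ DD b K z := by
  rintro e ⟨-, h2⟩
  exact h2.1

theorem st_dep (b K R : ℕ) (z w : Vt) (hw : (par b)^[K] (par b w) = z) :
    Dep (DD b K z) {ω : Cf | St b K R ω z w} := by
  rintro ω ω' h ⟨h1, h2⟩
  refine ⟨cn_dep b _ _ _ ω ω' (fun e he => h e (edg_sub b K R z 0 he)) h1, ?_⟩
  rw [← h _ ⟨K, le_rfl, by simpa [hd] using hw⟩]
  exact h2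

theorem meas_true {ι : Type} (e : ι) : MeasurableSet {ω : ι → Bool | ω e = true} := by
  have h : MeasurableSet ((fun ω : ι → Bool => ω e) ⁻¹' {true}) :=
    measurable_pi_apply e (measurableSet_singleton true)
  exact h

theorem st_meas (hM : S_MEAS) (b K R : ℕ) (z w : Vt) : MeasurableSet {ω : Cf | St b K R ω z w} := by
  have : {ω : Cf | St b K R ω z w} = {ω : Cf | Cn b ω (Blk b K R z 0) (z, 0) (par b w, 0)} ∩
      {ω : Cf | ω ((w, 0), false) = true} := rfl
  rw [this]
  exact (hM b _ _ _).1.inter (meas_true _)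

theorem prob_st (hA : S_AUT) (hM : S_MEAS) (b : ℕ) (hb : 2 ≤ b) (K R : ℕ) (p : ℝ≥0) (hp : p ≤ 1)
    (z w : Vt) (hw : (par b)^[K] (par b w) = z) :
    (PP Ed p hp).real {ω | St b K R ω z w} = p * piKR b K R p hp := by
  have e : {ω : Cf | St b K R ω z w} = {ω : Cf | Cn b ω (Blk b K R z 0) (z, 0) (par b w, 0)} ∩
      {ω : Cf | ω ((w, 0), false) = true} := rfl
  have hd' : Disjoint (edg b (Blk b K R z 0)) {(((w, 0), false) : Ed)} := by
    rw [Set.disjoint_singleton_right]
    rintro ⟨⟨⟨j, hj, h1⟩, -⟩, -⟩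
    have e1 : z.1 = w.1 + j := by rw [← h1, par_iter]
    have e2 : z.1 = w.1 + 1 + K := by rw [← hw, par_iter]; simp [par]
    omega
  have hdep : Dep {(((w, 0), false) : Ed)} {ω : Cf | ω ((w, 0), false) = true} := by
    intro ω ω' h hω
    simp only [Set.mem_ofPred_eq] at hω ⊢
    rw [← h _ rfl]; exact hω
  rw [e, ind Ed p hp _ _ _ _ hd' (cn_dep b _ _ _) hdep (hM b _ _ _).1
    (meas_true _), prob_true,
    prob_cn hA b hb K R p hp z (par b w) hw hM, mul_comm]

theorem fam (hA : S_AUT) (hM : S_MEAS) (b : ℕ) (hb : 2 ≤ b) (K R : ℕ) (p : ℝ≥0) (hp : p ≤ 1)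
    {κ : Type} (s : Finset κ) (z w : κ → Vt) (h1 : ∀ k ∈ s, (par b)^[K] (par b (w k)) = z k)
    (h2 : ∀ k ∈ s, ∀ l ∈ s, k ≠ l → Disjoint (DD b K (z k)) (DD b K (z l))) :
    MeasurableSet {ω : Cf | ∀ k ∈ s, St b K R ω (z k) (w k)} ∧
    (PP Ed p hp).real {ω | ∀ k ∈ s, St b K R ω (z k) (w k)} = (p * piKR b K R p hp) ^ s.card := by
  classical
  induction s using Finset.induction_on with
  | empty => simp
  | insert a s ha ih =>
    obtain ⟨m1, ih⟩ := ih (fun k hk => h1 k (Finset.mem_insert_of_mem hk))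
      (fun k hk l hl => h2 k (Finset.mem_insert_of_mem hk) l (Finset.mem_insert_of_mem hl))
    have e : {ω : Cf | ∀ k ∈ insert a s, St b K R ω (z k) (w k)} =
        {ω : Cf | St b K R ω (z a) (w a)} ∩ {ω : Cf | ∀ k ∈ s, St b K R ω (z k) (w k)} := by
      ext ω; simp [Finset.forall_mem_insert]
    have hdep : Dep (⋃ k ∈ s, DD b K (z k)) {ω : Cf | ∀ k ∈ s, St b K R ω (z k) (w k)} := by
      intro ω ω' h hω k hk
      exact st_dep b K R (z k) (w k) (h1 k (Finset.mem_insert_of_mem hk)) ω ω'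
        (fun e he => h e (Set.mem_biUnion hk he)) (hω k hk)
    have hdj : Disjoint (DD b K (z a)) (⋃ k ∈ s, DD b K (z k)) := by
      rw [Set.disjoint_iUnion₂_right]
      intro k hk
      exact h2 a (Finset.mem_insert_self _ _) k (Finset.mem_insert_of_mem hk)
        (fun h => ha (h ▸ hk))
    rw [e]
    refine ⟨(st_meas hM b K R _ _).inter m1, ?_⟩
    rw [ind Ed p hp _ _ _ _ hdj (st_dep b K R _ _ (h1 a (Finset.mem_insert_self _ _))) hdep
      (st_meas hM b K R _ _) m1, ih, prob_st hA hM b hb K R p hp _ _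
      (h1 a (Finset.mem_insert_self _ _)), Finset.card_insert_of_notMem ha]
    ring

theorem rs_meas (hM : S_MEAS) (b K R i : ℕ) (z w : Vt) :
    MeasurableSet {ω : Cf | w ∈ Rs b K R ω i z} := by
  by_cases h : (par b)^[(K + 1) * i] w = z
  · have : {ω : Cf | w ∈ Rs b K R ω i z} = ⋂ t, ⋂ (_ : t < i),
        {ω : Cf | St b K R ω ((par b)^[(K + 1) * (t + 1)] w) ((par b)^[(K + 1) * t] w)} := by
      ext ω; simp [Rs, h]
    rw [this]
    exact MeasurableSet.iInter fun t => MeasurableSet.iInter fun _ => st_meas hM b K R _ _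
  · have : {ω : Cf | w ∈ Rs b K R ω i z} = ∅ := by
      ext ω; simp [Rs, h]
    rw [this]; exact MeasurableSet.empty

theorem anc (b K t : ℕ) (w : Vt) :
    (par b)^[K] (par b ((par b)^[(K + 1) * t] w)) = (par b)^[(K + 1) * (t + 1)] w := by
  have e : (K + 1) * (t + 1) = K + 1 + (K + 1) * t := by ring
  rw [e, Function.iterate_add_apply, Function.iterate_succ_apply]

end TreeL

open TreeL

/-- [STEP] -/
theorem step (hA : S_AUT) (hM : S_MEAS) : S_STEP := by
  intro b hb K R p hp i z w hw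
  have e : {ω : Cf | w ∈ Rs b K R ω i z} = {ω : Cf | ∀ t ∈ Finset.range i,
      St b K R ω ((par b)^[(K + 1) * (t + 1)] w) ((par b)^[(K + 1) * t] w)} := by
    ext ω; simp [Rs, hw]
  rw [e, (fam hA hM b hb K R p hp (Finset.range i)
    (fun t => (par b)^[(K + 1) * (t + 1)] w) (fun t => (par b)^[(K + 1) * t] w)
    (fun t _ => anc b K t w) ?_).2, Finset.card_range]
  intro t _ s _ hts
  have h1 : ((par b)^[(K + 1) * (t + 1)] w).1 = w.1 + (K + 1) * (t + 1) := by
    rw [par_iter]; push_cast; ring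
  have h2 : ((par b)^[(K + 1) * (s + 1)] w).1 = w.1 + (K + 1) * (s + 1) := by
    rw [par_iter]; push_cast; ring
  rcases lt_or_gt_of_ne hts with h | h
  · have h3 : ((K : ℤ) + 1) * (t + 1) + (K + 1) ≤ (K + 1) * (s + 1) := by
      have : (t : ℤ) + 1 ≤ s := by exact_mod_cast h
      nlinarith
    apply DD_disj
    · intro h4; rw [Prod.ext_iff] at h4; have := h4.1; omega
    · right; left; omega
  · have h3 : ((K : ℤ) + 1) * (s + 1) + (K + 1) ≤ (K + 1) * (t + 1) := by
      have : (s : ℤ) + 1 ≤ t := by exact_mod_cast h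
      nlinarith
    apply DD_disj
    · intro h4; rw [Prod.ext_iff] at h4; have := h4.1; omega
    · right; right; omega

/-- [PAIR] -/
theorem pair (hA : S_AUT) (hM : S_MEAS) : S_PAIR := by
  intro b hb K R p hp i t z w w' hti hw hw' hne
  classical
  -- family indexed by `range i ⊕ range t`
  let zz : ℕ ⊕ ℕ → Vt := fun k => Sum.elim (fun s => (par b)^[(K + 1) * (s + 1)] w)
    (fun s => (par b)^[(K + 1) * (s + 1)] w') k
  let ww : ℕ ⊕ ℕ → Vt := fun k => Sum.elim (fun s => (par b)^[(K + 1) * s] w)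
    (fun s => (par b)^[(K + 1) * s] w') k
  have hl : w.1 = w'.1 := by
    have := congrArg Prod.fst (hw.trans hw'.symm)
    rw [par_iter, par_iter] at this
    simpa using this
  have lev : ∀ (v : Vt) (s : ℕ), ((par b)^[(K + 1) * (s + 1)] v).1 = v.1 + (K + 1) * (s + 1) := by
    intro v s; rw [par_iter]; push_cast; ring
  have gap : ∀ s r : ℕ, s < r → ((K : ℤ) + 1) * (s + 1) + (K + 1) ≤ (K + 1) * (r + 1) := by
    intro s r h
    have : (s : ℤ) + 1 ≤ r := by exact_mod_cast h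
    nlinarith
  have disj : ∀ (v v' : Vt) (s r : ℕ), v.1 = v'.1 → s ≠ r →
      Disjoint (DD b K ((par b)^[(K + 1) * (s + 1)] v)) (DD b K ((par b)^[(K + 1) * (r + 1)] v')) := by
    intro v v' s r hv hsr
    have h1 := lev v s
    have h2 := lev v' r
    rcases lt_or_gt_of_ne hsr with h | h
    · have h3 := gap s r h
      apply DD_disj
      · intro h4; rw [Prod.ext_iff] at h4; have := h4.1; omega
      · right; left; omega
    · have h3 := gap r s h
      apply DD_disj
      · intro h4; rw [Prod.ext_iff] at h4; have := h4.1; omega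
      · right; right; omega
  have same : ∀ s, s < t → (par b)^[(K + 1) * (s + 1)] w ≠ (par b)^[(K + 1) * (s + 1)] w' := by
    intro s hs h
    apply hne
    have e : (K + 1) * t = (K + 1) * (t - (s + 1)) + (K + 1) * (s + 1) := by
      rw [← mul_add]; congr 1; omega
    rw [e, Function.iterate_add_apply, Function.iterate_add_apply, h]
  have hf := fam hA hM b hb K R p hp ((Finset.range i).disjSum (Finset.range t)) zz ww ?_ ?_
  · have hcard : ((Finset.range i).disjSum (Finset.range t)).card = i + t := by simp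
    rw [hcard] at hf
    rw [← hf.2]
    refine measureReal_mono ?_
    rintro ω ⟨h1, h2⟩ k hk
    rcases k with s | s
    · have hs : s < i := by simpa using hk
      exact h1.2 s hs
    · have hs : s < t := by simpa using hk
      exact h2.2 s (hs.trans hti)
  · rintro (s | s) _
    · exact anc b K s w
    · exact anc b K s w'
  · rintro (s | s) hs (r | r) hr hsr
    · exact disj w w s r rfl (fun h => hsr (by rw [h]))
    · by_cases h : s = r
      · subst h
        apply DD_disj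
        · exact same s (by simpa using hr)
        · left; show ((par b)^[(K + 1) * (s + 1)] w).1 = ((par b)^[(K + 1) * (s + 1)] w').1
          rw [lev, lev, hl]
      · exact disj w w' s r hl h
    · by_cases h : s = r
      · subst h
        apply DD_disj
        · exact (same s (by simpa using hs)).symm
        · left; show ((par b)^[(K + 1) * (s + 1)] w').1 = ((par b)^[(K + 1) * (s + 1)] w).1
          rw [lev, lev, hl]
      · exact disj w' w s r hl.symm h
    · exact disj w' w' s r rfl (fun h => hsr (by rw [h]))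

end Pool.Agent.Helper98K9.CP
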